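import Pool.Agent.MP_645085_gt.Push

/-!
Averaged distances to the members of a chain of subspaces.
-/

namespace Pool.Agent.MP_645085_gt

open Set Filter Topology TopologicalSpace Function

universe u

theorem exists_partition (α : Type u) [PseudoMetricSpace α] {δ : ℝ} (hδ : 0 < δ) :
    ∃ (ι : Type u) (f : ι → α → ℝ) (b : ι → α), (∀ i x y, dist x y = 0 → f i x = f i y) ∧
      (∀ i x, 0 ≤ f i x) ∧ (∀ x, ∑ᶠ i, f i x = 1) ∧
      (∀ x, ∃ r > 0, {i | ∃ y, dist y x < r ∧ f i y ≠ 0}.Finite) ∧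
      (∀ i x, f i x ≠ 0 → dist x (b i) < δ) := by
  obtain ⟨f, hf⟩ := PartitionOfUnity.exists_isSubordinate (isClosed_univ (X := α))
    (fun b : α => Metric.ball b δ) (fun b => Metric.isOpen_ball)
    (fun x _ => mem_iUnion.2 ⟨x, Metric.mem_ball_self hδ⟩)
  refine ⟨α, fun i => f i, fun i => i, ?_, fun i x => f.nonneg i x,
    fun x => f.sum_eq_one (mem_univ x), ?_, ?_⟩
  · intro i x y hxy
    have h1 : Inseparable x y := Metric.inseparable_iff.2 hxy
    exact (h1.map (f i).continuous).eq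
  · intro x
    obtain ⟨t, ht, hfin⟩ := f.locallyFinite x
    obtain ⟨r, hr, hrt⟩ := Metric.mem_nhds_iff.1 ht
    refine ⟨r, hr, hfin.subset ?_⟩
    rintro i ⟨y, hy, hiy⟩
    exact ⟨y, hiy, hrt hy⟩
  · intro i x hx
    have := hf i (subset_tsupport _ hx)
    exact this

section
variable {E : Type u} [AddCommGroup E] [Module ℝ E] [TopologicalSpace E] (nu : FNorm E)

/-- The pseudometric given by the distance to a subspace. -/
@[reducible] noncomputable def pm (F : Submodule ℝ E) : PseudoMetricSpace E where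
  dist x y := nu.dF F (x - y)
  dist_self x := by
    rw [sub_self]
    apply le_antisymm _ (nu.dF_nonneg _ _)
    rw [← nu.zero]
    exact nu.dF_le_N _ _
  dist_comm x y := by
    rw [← neg_sub, nu.dF_neg]
  dist_triangle x y z := by
    have := nu.dF_add_dF_le F (x - y) (y - z)
    rwa [sub_add_sub_cancel] at this

theorem exists_partition_mod (F : Submodule ℝ E) {δ : ℝ} (hδ : 0 < δ) :
    ∃ (ι : Type u) (f : ι → E → ℝ) (b : ι → E), (∀ i x, ∀ e ∈ F, f i (x + e) = f i x) ∧
      (∀ i x, 0 ≤ f i x) ∧ (∀ x, ∑ᶠ i, f i x = 1) ∧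
      (∀ x, ∃ r > 0, {i | ∃ y, nu.dF F (y - x) < r ∧ f i y ≠ 0}.Finite) ∧
      (∀ i x, f i x ≠ 0 → nu.dF F (x - b i) < δ) := by
  obtain ⟨ι, f, b, h1, h2, h3, h4, h5⟩ := @exists_partition E (pm nu F) δ hδ
  refine ⟨ι, f, b, ?_, h2, h3, h4, h5⟩
  intro i x e he
  apply h1
  show nu.dF F (x + e - x) = 0
  rw [add_sub_cancel_left]
  have := nu.dF_add_mem he 0
  rw [zero_add] at this
  rw [this]
  apply le_antisymm _ (nu.dF_nonneg _ _)
  rw [← nu.zero]
  exact nu.dF_le_N _ _

end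

variable {E : Type u} [AddCommGroup E] [Module ℝ E] [TopologicalSpace E]
  [IsTopologicalAddGroup E] {nu : FNorm E} (C : Chain nu)

lemma Chain.mem_iSup {e : E} : e ∈ (⨆ k, C.Y k) ↔ ∃ k, e ∈ C.Y k :=
  Submodule.mem_iSup_of_directed _ C.mono.directed_le

lemma Chain.exists_dF_lt {x : E} {r : ℝ} (h : nu.dF (⨆ k, C.Y k) x < r) :
    ∃ k, nu.dF (C.Y k) x < r := by
  obtain ⟨f, hf, hlt⟩ := nu.exists_of_dF_lt h
  obtain ⟨k, hk⟩ := C.mem_iSup.1 hf
  exact ⟨k, (nu.dF_le hk x).trans_lt hlt⟩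

theorem Chain.exists_q {δ : ℝ} (hδ : 0 < δ) :
    ∃ q : ℕ → E → ℝ, (∀ x0, ∃ K, ∀ᶠ x in 𝓝 x0, ∀ j, K ≤ j → q j x ≤ 2 * δ) ∧
      ∀ j x e, (∃ k, e ∈ C.Y k) → nu.dF (C.Y j) e - q j x ≤ q j (x + e) := by
  classical
  obtain ⟨ι, f, b, h1, h2, h3, h4, h5⟩ := exists_partition_mod nu (⨆ k, C.Y k) hδ
  have hsupp : ∀ x, (support fun i => f i x).Finite := by
    intro x
    obtain ⟨r, hr, hfin⟩ := h4 x
    refine hfin.subset fun i hi => ⟨x, ?_, hi⟩
    rw [sub_self]
    have : nu.dF (⨆ k, C.Y k) 0 ≤ 0 := by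
      rw [← nu.zero]
      exact nu.dF_le_N _ _
    linarith
  refine ⟨fun j x => ∑ᶠ i, f i x * nu.dF (C.Y j) (x - b i), ?_, ?_⟩
  · intro x0
    obtain ⟨r, hr, hfin⟩ := h4 x0
    have key : ∀ i, ∃ K, ∀ᶠ x in 𝓝 x0, f i x ≠ 0 → ∀ j, K ≤ j →
        nu.dF (C.Y j) (x - b i) ≤ 2 * δ := by
      intro i
      have hev := nu.eventually_N_lt x0 (show 0 < δ / 4 by linarith)
      by_cases hd : nu.dF (⨆ k, C.Y k) (x0 - b i) < 5 / 4 * δ
      · obtain ⟨K, hK⟩ := C.exists_dF_lt hd
        refine ⟨K, ?_⟩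
        filter_upwards [hev] with x hx _ j hj
        have e1 := nu.dF_anti (C.mono hj) (x - b i)
        have e2 := nu.dF_sub_le (C.Y K) (x - b i) (x0 - b i)
        rw [sub_sub_sub_cancel_right] at e2
        linarith
      · refine ⟨0, ?_⟩
        filter_upwards [hev] with x hx hfx
        exfalso
        apply hd
        have e1 := h5 i x hfx
        have e2 := nu.dF_sub_le (⨆ k, C.Y k) (x0 - b i) (x - b i)
        rw [sub_sub_sub_cancel_right, nu.N_sub_comm] at e2
        linarith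
    choose K hK using key
    refine ⟨∑ i ∈ hfin.toFinset, K i, ?_⟩
    have hall : ∀ᶠ x in 𝓝 x0, ∀ i ∈ {i | ∃ y, nu.dF (⨆ k, C.Y k) (y - x0) < r ∧ f i y ≠ 0},
        (f i x ≠ 0 → ∀ j, K i ≤ j → nu.dF (C.Y j) (x - b i) ≤ 2 * δ) := by
      rw [eventually_all_finite hfin]
      intro i _
      exact hK i
    filter_upwards [hall, nu.eventually_N_lt x0 hr] with x hx hxr j hj
    have hsub : (support fun i => f i x * nu.dF (C.Y j) (x - b i)) ⊆
        ↑(hsupp x).toFinset := by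
      intro i hi
      rw [Finite.coe_toFinset]
      intro h
      apply hi
      have h' : f i x = 0 := h
      show f i x * _ = 0
      rw [h', zero_mul]
    rw [finsum_eq_sum_of_support_subset _ hsub]
    have hone : ∑ i ∈ (hsupp x).toFinset, f i x = 1 := by
      rw [← h3 x, finsum_eq_sum_of_support_subset]
      rw [Finite.coe_toFinset]
    calc ∑ i ∈ (hsupp x).toFinset, f i x * nu.dF (C.Y j) (x - b i)
        ≤ ∑ i ∈ (hsupp x).toFinset, f i x * (2 * δ) := by
          apply Finset.sum_le_sum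
          intro i hi
          have hfi : f i x ≠ 0 := (hsupp x).mem_toFinset.1 hi
          have hmem : i ∈ {i | ∃ y, nu.dF (⨆ k, C.Y k) (y - x0) < r ∧ f i y ≠ 0} :=
            ⟨x, (nu.dF_le_N _ _).trans_lt hxr, hfi⟩
          apply mul_le_mul_of_nonneg_left _ (h2 i x)
          apply hx i hmem hfi
          refine le_trans ?_ hj
          exact Finset.single_le_sum (fun _ _ => Nat.zero_le _) (hfin.mem_toFinset.2 hmem)
      _ = 2 * δ := by rw [← Finset.sum_mul, hone, one_mul]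
  · intro j x e he
    have he' : e ∈ (⨆ k, C.Y k) := C.mem_iSup.2 he
    have hinv : ∀ i, f i (x + e) = f i x := fun i => h1 i x e he'
    simp only [hinv]
    have hsub : ∀ g : ι → ℝ, (support fun i => f i x * g i) ⊆ ↑(hsupp x).toFinset := by
      intro g i hi
      rw [Finite.coe_toFinset]
      intro h
      apply hi
      have h' : f i x = 0 := h
      show f i x * _ = 0
      rw [h', zero_mul]
    rw [finsum_eq_sum_of_support_subset _ (hsub _), finsum_eq_sum_of_support_subset _ (hsub _)]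
    have hone : ∑ i ∈ (hsupp x).toFinset, f i x = 1 := by
      rw [← h3 x, finsum_eq_sum_of_support_subset]
      rw [Finite.coe_toFinset]
    have hexp : nu.dF (C.Y j) e = ∑ i ∈ (hsupp x).toFinset, f i x * nu.dF (C.Y j) e := by
      rw [← Finset.sum_mul, hone, one_mul]
    rw [sub_le_iff_le_add, hexp, ← Finset.sum_add_distrib]
    apply Finset.sum_le_sum
    intro i _
    rw [← mul_add]
    apply mul_le_mul_of_nonneg_left _ (h2 i x)
    have := nu.dF_add_dF_le (C.Y j) (x + e - b i) (-(x - b i))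
    rw [nu.dF_neg, show x + e - b i + -(x - b i) = e by abel] at this
    exact this

end Pool.Agent.MP_645085_gt
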