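import Pool.Agent.MP_645085_gt.FNorm

/-!
Distances to linear subspaces measured with an F-norm; in a non-separable space, separable
subspaces are uniformly far from being everything.
-/

namespace Pool.Agent.MP_645085_gt

open Set Filter Topology TopologicalSpace

namespace FNorm

section basic
variable {E : Type*} [AddCommGroup E] [Module ℝ E] [TopologicalSpace E]
variable (nu : FNorm E)

/-- The distance to a linear subspace. -/
noncomputable def dF (F : Submodule ℝ E) (x : E) : ℝ := ⨅ f : F, nu.N (x - f)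

lemma bddBelow (F : Submodule ℝ E) (x : E) : BddBelow (range fun f : F => nu.N (x - f)) :=
  ⟨0, by rintro _ ⟨f, rfl⟩; exact nu.nonneg _⟩

lemma dF_nonneg (F : Submodule ℝ E) (x : E) : 0 ≤ nu.dF F x :=
  Real.iInf_nonneg fun _ => nu.nonneg _

lemma dF_le {F : Submodule ℝ E} {f : E} (hf : f ∈ F) (x : E) : nu.dF F x ≤ nu.N (x - f) :=
  ciInf_le (nu.bddBelow F x) ⟨f, hf⟩

lemma dF_le_N (F : Submodule ℝ E) (x : E) : nu.dF F x ≤ nu.N x := by
  simpa using nu.dF_le (zero_mem F) x

lemma exists_of_dF_lt {F : Submodule ℝ E} {x : E} {r : ℝ} (h : nu.dF F x < r) :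
    ∃ f ∈ F, nu.N (x - f) < r := by
  obtain ⟨f, hf⟩ := exists_lt_of_ciInf_lt h
  exact ⟨f, f.2, hf⟩

lemma le_dF {F : Submodule ℝ E} {x : E} {r : ℝ} (h : ∀ f ∈ F, r ≤ nu.N (x - f)) :
    r ≤ nu.dF F x := le_ciInf fun f => h f f.2

lemma N_sub_comm (x y : E) : nu.N (x - y) = nu.N (y - x) := by
  rw [← neg_sub, nu.neg]

lemma N_sub_le (x y : E) : nu.N (x - y) ≤ nu.N x + nu.N y := by
  rw [sub_eq_add_neg]
  exact (nu.add _ _).trans (by rw [nu.neg])

lemma N_tri (x y z : E) : nu.N (x - z) ≤ nu.N (x - y) + nu.N (y - z) := by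
  have := nu.add (x - y) (y - z)
  simpa using this

lemma dF_add_le (F : Submodule ℝ E) (x y : E) : nu.dF F (x + y) ≤ nu.dF F x + nu.N y := by
  by_contra h
  push Not at h
  have h1 : nu.dF F x < nu.dF F (x + y) - nu.N y := by linarith
  obtain ⟨f, hf, h2⟩ := nu.exists_of_dF_lt h1
  have h3 := nu.dF_le hf (x + y)
  have h4 : nu.N (x + y - f) ≤ nu.N (x - f) + nu.N y := by
    have := nu.add (x - f) y
    rwa [show x - f + y = x + y - f by abel] at this
  linarith

lemma dF_add_dF_le (F : Submodule ℝ E) (x y : E) :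
    nu.dF F (x + y) ≤ nu.dF F x + nu.dF F y := by
  by_contra h
  push Not at h
  have h1 : nu.dF F x < nu.dF F (x + y) - nu.dF F y := by linarith
  obtain ⟨f, hf, h2⟩ := nu.exists_of_dF_lt h1
  have h1' : nu.dF F y < nu.dF F (x + y) - nu.N (x - f) := by linarith
  obtain ⟨g, hg, h2'⟩ := nu.exists_of_dF_lt h1'
  have h3 := nu.dF_le (F.add_mem hf hg) (x + y)
  have h4 : nu.N (x + y - (f + g)) ≤ nu.N (x - f) + nu.N (y - g) := by
    have := nu.add (x - f) (y - g)
    rwa [show x - f + (y - g) = x + y - (f + g) by abel] at this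
  linarith

lemma dF_neg (F : Submodule ℝ E) (x : E) : nu.dF F (-x) = nu.dF F x := by
  have key : ∀ x : E, nu.dF F (-x) ≤ nu.dF F x := by
    intro x
    apply nu.le_dF
    intro f hf
    have := nu.dF_le (F.neg_mem hf) (-x)
    rwa [show -x - -f = -(x - f) by abel, nu.neg] at this
  apply le_antisymm (key x)
  simpa using key (-x)

lemma dF_add_mem {F : Submodule ℝ E} {f : E} (hf : f ∈ F) (x : E) :
    nu.dF F (x + f) = nu.dF F x := by
  have key : ∀ f ∈ F, ∀ x : E, nu.dF F (x + f) ≤ nu.dF F x := by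
    intro f hf x
    apply nu.le_dF
    intro g hg
    have := nu.dF_le (F.add_mem hg hf) (x + f)
    rwa [show x + f - (g + f) = x - g by abel] at this
  apply le_antisymm (key f hf x)
  have := key (-f) (F.neg_mem hf) (x + f)
  simpa using this

lemma dF_sub_mem {F : Submodule ℝ E} {f : E} (hf : f ∈ F) (x : E) :
    nu.dF F (x - f) = nu.dF F x := by
  rw [sub_eq_add_neg]; exact nu.dF_add_mem (F.neg_mem hf) x

lemma dF_anti {F G : Submodule ℝ E} (h : F ≤ G) (x : E) : nu.dF G x ≤ nu.dF F x :=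
  nu.le_dF fun _ hf => nu.dF_le (h hf) x

lemma dF_sub_le (F : Submodule ℝ E) (x y : E) : nu.dF F x ≤ nu.dF F y + nu.N (x - y) := by
  have := nu.dF_add_le F y (x - y)
  simpa using this

lemma abs_dF_sub_le (F : Submodule ℝ E) (x y : E) :
    |nu.dF F x - nu.dF F y| ≤ nu.N (x - y) := by
  rw [abs_sub_le_iff]
  constructor
  · linarith [nu.dF_sub_le F x y]
  · have := nu.dF_sub_le F y x
    rw [nu.N_sub_comm y x] at this
    linarith

lemma dF_smul_mono (F : Submodule ℝ E) (x : E) {s t : ℝ} (hs : 0 ≤ s) (hst : s ≤ t) :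
    nu.dF F (s • x) ≤ nu.dF F (t • x) := by
  rcases eq_or_lt_of_le (hs.trans hst) with h | h
  · have : s = 0 := le_antisymm (by linarith) hs
    rw [this, ← h]
  · apply nu.le_dF
    intro f hf
    have h1 := nu.dF_le (F.smul_mem (s / t) hf) (s • x)
    have h2 : s • x - (s / t) • f = (s / t) • (t • x - f) := by
      rw [smul_sub, smul_smul, div_mul_cancel₀ _ h.ne']
    rw [h2] at h1
    refine h1.trans (nu.smul _ _ ?_)
    rw [abs_of_nonneg (by positivity)]
    exact (div_le_one h).2 hst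

lemma N_smul_mono (x : E) {s t : ℝ} (hs : 0 ≤ s) (hst : s ≤ t) :
    nu.N (s • x) ≤ nu.N (t • x) := by
  rcases eq_or_lt_of_le (hs.trans hst) with h | h
  · have : s = 0 := le_antisymm (by linarith) hs
    rw [this, ← h]
  · have h2 : s • x = (s / t) • (t • x) := by
      rw [smul_smul, div_mul_cancel₀ _ h.ne']
    rw [h2]
    refine nu.smul _ _ ?_
    rw [abs_of_nonneg (by positivity)]
    exact (div_le_one h).2 hst

end basic

section top
variable {E : Type*} [AddCommGroup E] [Module ℝ E] [TopologicalSpace E] [IsTopologicalAddGroup E]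
variable (nu : FNorm E)

lemma nhds_basis (x : E) :
    (𝓝 x).HasBasis (fun ε : ℝ => 0 < ε) (fun ε => {y | nu.N (y - x) < ε}) := by
  have h : 𝓝 x = comap (fun y => y - x) (𝓝 0) := by
    rw [nhds_translation_sub]
  rw [h]
  exact nu.basis.comap _

lemma eventually_N_lt (x : E) {ε : ℝ} (hε : 0 < ε) : ∀ᶠ y in 𝓝 x, nu.N (y - x) < ε :=
  (nu.nhds_basis x).mem_of_mem hε

lemma tendsto_N_sub (x : E) : Tendsto (fun y => nu.N (y - x)) (𝓝 x) (𝓝 0) := by
  rw [Metric.tendsto_nhds]
  intro ε hε
  filter_upwards [nu.eventually_N_lt x hε] with y hy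
  rw [Real.dist_eq, sub_zero, abs_of_nonneg (nu.nonneg _)]
  exact hy

lemma continuous_of_lip {g : E → ℝ} (hg : ∀ x y, |g x - g y| ≤ nu.N (x - y)) : Continuous g := by
  rw [continuous_iff_continuousAt]
  intro x
  rw [ContinuousAt, tendsto_iff_dist_tendsto_zero]
  refine squeeze_zero (fun _ => dist_nonneg) (fun y => ?_) (nu.tendsto_N_sub x)
  rw [Real.dist_eq]
  exact hg y x

lemma continuous_dF (F : Submodule ℝ E) : Continuous (nu.dF F) :=
  nu.continuous_of_lip (nu.abs_dF_sub_le F)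

lemma continuous_N : Continuous nu.N := by
  apply nu.continuous_of_lip
  intro x y
  rw [abs_sub_le_iff]
  have h1 := nu.add (x - y) y
  have h2 := nu.add (y - x) x
  rw [sub_add_cancel] at h1 h2
  rw [nu.N_sub_comm y x] at h2
  constructor <;> linarith

/-- In a non-separable space there is a uniform `ε` such that no separable subspace is `ε`-dense. -/
theorem exists_far [ContinuousSMul ℝ E] (hE : ¬ SeparableSpace E) :
    ∃ ε > 0, ∀ F : Submodule ℝ E, IsSeparable (F : Set E) → ∃ x, ε ≤ nu.dF F x := by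
  by_contra hcon
  push Not at hcon
  have h1 : ∀ n : ℕ, ∃ F : Submodule ℝ E, IsSeparable (F : Set E) ∧
      ∀ x, nu.dF F x < 1 / ((n : ℝ) + 1) := fun n => hcon _ (by positivity)
  choose F hF1 hF2 using h1
  apply hE
  rw [← isSeparable_univ_iff]
  have h2 : IsSeparable (⋃ n, (F n : Set E)) := IsSeparable.iUnion hF1
  have h3 : closure (⋃ n, (F n : Set E)) = univ := by
    rw [eq_univ_iff_forall]
    intro x
    rw [mem_closure_iff_nhds_basis (nu.nhds_basis x)]
    intro ε hε
    obtain ⟨n, hn⟩ := exists_nat_one_div_lt hε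
    obtain ⟨f, hf, hfx⟩ := nu.exists_of_dF_lt (hF2 n x)
    refine ⟨f, mem_iUnion.2 ⟨n, hf⟩, ?_⟩
    show nu.N (f - x) < ε
    rw [nu.N_sub_comm]
    linarith
  rw [← h3]
  exact h2.closure

end top

end FNorm

/-- A chain of subspaces with vectors uniformly far from the previous ones. -/
structure Chain {E : Type*} [AddCommGroup E] [Module ℝ E] [TopologicalSpace E]
    (nu : FNorm E) where
  /-- the subspaces -/
  Y : ℕ → Submodule ℝ E
  /-- the far vectors -/
  x : ℕ → E
  mono : Monotone Y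
  mem : ∀ k, x k ∈ Y (k + 1)
  /-- the uniform bound -/
  ε : ℝ
  pos : 0 < ε
  far : ∀ k, ε ≤ nu.dF (Y k) (x k)

theorem exists_chain {E : Type*} [AddCommGroup E] [Module ℝ E] [TopologicalSpace E]
    [IsTopologicalAddGroup E] [ContinuousSMul ℝ E] (nu : FNorm E) (hE : ¬ SeparableSpace E) :
    Nonempty (Chain nu) := by
  classical
  obtain ⟨ε, hε, hfar⟩ := nu.exists_far hE
  have step : ∀ F : {F : Submodule ℝ E // IsSeparable (F : Set E)}, ∃ x, ε ≤ nu.dF F.1 x :=
    fun F => hfar F.1 F.2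
  choose c hc using step
  have hsep : ∀ F : {F : Submodule ℝ E // IsSeparable (F : Set E)},
      IsSeparable ((Submodule.span ℝ ((F.1 : Set E) ∪ {c F}) : Submodule ℝ E) : Set E) := by
    intro F
    exact (F.2.union (countable_singleton _).isSeparable).span
  let Y : ℕ → {F : Submodule ℝ E // IsSeparable (F : Set E)} := fun n =>
    Nat.rec ⟨⊥, by simpa using (countable_singleton (0 : E)).isSeparable⟩
      (fun _ F => ⟨Submodule.span ℝ ((F.1 : Set E) ∪ {c F}), hsep F⟩) n
  have hY : ∀ n, (Y (n + 1)).1 = Submodule.span ℝ (((Y n).1 : Set E) ∪ {c (Y n)}) := fun n => rfl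
  refine ⟨⟨fun n => (Y n).1, fun n => c (Y n), ?_, ?_, ε, hε, fun k => hc _⟩⟩
  · apply monotone_nat_of_le_succ
    intro n
    show (Y n).1 ≤ (Y (n + 1)).1
    rw [hY]
    intro y hy
    exact Submodule.subset_span (Or.inl hy)
  · intro k
    show c (Y k) ∈ (Y (k + 1)).1
    rw [hY]
    exact Submodule.subset_span (Or.inr rfl)

end Pool.Agent.MP_645085_gt
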