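import Mathlib

/-!
Every first countable real topological vector space carries an F-norm generating its topology.
-/

namespace Pool.Agent.MP_645085_gt

open Set Filter Topology TopologicalSpace
open scoped NNReal Pointwise

/-- An F-norm generating the topology of a real topological vector space. -/
structure FNorm (E : Type*) [AddCommGroup E] [Module ℝ E] [TopologicalSpace E] where
  /-- the function itself -/
  N : E → ℝ
  nonneg : ∀ x, 0 ≤ N x
  zero : N 0 = 0
  neg : ∀ x, N (-x) = N x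
  add : ∀ x y, N (x + y) ≤ N x + N y
  smul : ∀ (t : ℝ) (x : E), |t| ≤ 1 → N (t • x) ≤ N x
  basis : (𝓝 (0 : E)).HasBasis (fun ε : ℝ => 0 < ε) (fun ε => {x | N x < ε})

variable {E : Type*} [AddCommGroup E] [Module ℝ E] [TopologicalSpace E] [IsTopologicalAddGroup E]
  [ContinuousSMul ℝ E]

lemma exists_third {W : Set E} (hW : W ∈ 𝓝 (0 : E)) :
    ∃ V ∈ 𝓝 (0 : E), Balanced ℝ V ∧ V ⊆ W ∧ ∀ a ∈ V, ∀ b ∈ V, ∀ c ∈ V, a + b + c ∈ W := by
  have h1 : Tendsto (fun p : E × E × E => p.1 + p.2.1 + p.2.2) (𝓝 (0, 0, 0)) (𝓝 (0 + 0 + 0)) := by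
    apply Continuous.tendsto'
    · fun_prop
    · simp
  rw [add_zero, add_zero] at h1
  have h2 := h1 hW
  rw [mem_map, nhds_prod_eq, nhds_prod_eq] at h2
  obtain ⟨A, hA, B, hB, hAB⟩ := mem_prod_iff.1 h2
  obtain ⟨C, hC, D, hD, hCD⟩ := mem_prod_iff.1 hB
  have hmem : W ∩ (A ∩ (C ∩ D)) ∈ 𝓝 (0 : E) := inter_mem hW (inter_mem hA (inter_mem hC hD))
  obtain ⟨V, ⟨hV, hVb⟩, hVs⟩ := (nhds_basis_balanced ℝ E).mem_iff.1 hmem
  refine ⟨V, hV, hVb, fun x hx => (hVs hx).1, ?_⟩
  intro a ha b hb c hc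
  have ha' := hVs ha
  have hb' := hVs hb
  have hc' := hVs hc
  exact hAB (mk_mem_prod ha'.2.1 (hCD (mk_mem_prod hb'.2.2.1 hc'.2.2.2)))

lemma exists_seq [FirstCountableTopology E] :
    ∃ V : ℕ → Set E, (∀ n, V n ∈ 𝓝 (0 : E)) ∧ (∀ n, Balanced ℝ (V n)) ∧
      (∀ n, V (n + 1) ⊆ V n) ∧
      (∀ n, ∀ a ∈ V (n + 1), ∀ b ∈ V (n + 1), ∀ c ∈ V (n + 1), a + b + c ∈ V n) ∧
      V 0 = univ ∧ ∀ W ∈ 𝓝 (0 : E), ∃ n, V n ⊆ W := by
  classical
  obtain ⟨u, hu⟩ := (𝓝 (0 : E)).exists_antitone_basis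
  have step : ∀ W : {W : Set E // W ∈ 𝓝 (0 : E)}, ∃ V : {V : Set E // V ∈ 𝓝 (0 : E)},
      Balanced ℝ V.1 ∧ V.1 ⊆ W.1 ∧ ∀ a ∈ V.1, ∀ b ∈ V.1, ∀ c ∈ V.1, a + b + c ∈ W.1 := by
    intro W
    obtain ⟨V, h1, h2, h3, h4⟩ := exists_third W.2
    exact ⟨⟨V, h1⟩, h2, h3, h4⟩
  choose F hF1 hF2 hF3 using step
  let V : ℕ → {V : Set E // V ∈ 𝓝 (0 : E)} := fun n =>
    Nat.rec ⟨univ, univ_mem⟩ (fun k W => F ⟨W.1 ∩ u k, inter_mem W.2 (hu.mem k)⟩) n
  refine ⟨fun n => (V n).1, fun n => (V n).2, ?_, ?_, ?_, rfl, ?_⟩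
  · intro n
    rcases n with _ | n
    · exact balanced_univ
    · exact hF1 ⟨(V n).1 ∩ u n, inter_mem (V n).2 (hu.mem n)⟩
  · intro n x hx
    exact (hF2 ⟨(V n).1 ∩ u n, inter_mem (V n).2 (hu.mem n)⟩ hx).1
  · intro n a ha b hb c hc
    exact (hF3 ⟨(V n).1 ∩ u n, inter_mem (V n).2 (hu.mem n)⟩ a ha b hb c hc).1
  · intro W hW
    obtain ⟨n, -, hn⟩ := hu.toHasBasis.mem_iff.1 hW
    refine ⟨n + 1, fun x hx => hn ?_⟩
    exact (hF2 ⟨(V n).1 ∩ u n, inter_mem (V n).2 (hu.mem n)⟩ hx).2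

theorem exists_fnorm [FirstCountableTopology E] : Nonempty (FNorm E) := by
  classical
  obtain ⟨V, hV1, hV2, hV3, hV4, hV0, hV5⟩ := exists_seq (E := E)
  have hanti : Antitone V := antitone_nat_of_succ_le hV3
  have h0V : ∀ n, (0 : E) ∈ V n := fun n => mem_of_mem_nhds (hV1 n)
  let g : E → ℝ≥0 := fun x => if h : ∃ n, x ∉ V n then (1 / 2) ^ Nat.find h else 0
  have hg0 : g 0 = 0 := by
    simp only [g]
    rw [dif_neg]
    push Not
    exact h0V
  have hr : (1 / 2 : ℝ≥0) ∈ Ioo (0 : ℝ≥0) 1 := ⟨half_pos one_pos, NNReal.half_lt_self one_ne_zero⟩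
  have hle_g : ∀ {x : E} {n : ℕ}, (1 / 2) ^ n ≤ g x ↔ x ∉ V n := by
    intro x n
    dsimp only [g]
    split_ifs with h
    · rw [(pow_right_strictAnti₀ hr.1 hr.2).le_iff_ge, Nat.find_le_iff]
      exact ⟨fun ⟨m, hmn, hm⟩ hn => hm (hanti hmn hn), fun h => ⟨n, le_rfl, h⟩⟩
    · push Not at h
      simp only [h, not_true, (pow_pos hr.1 _).not_ge]
  have hgmono : ∀ x y : E, (∀ n, y ∈ V n → x ∈ V n) → g x ≤ g y := by
    intro x y hxy
    by_cases h : ∃ n, x ∉ V n
    · have e : g x = (1 / 2) ^ Nat.find h := dif_pos h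
      rw [e, hle_g]
      intro hy
      exact Nat.find_spec h (hxy _ hy)
    · have e : g x = 0 := dif_neg h
      rw [e]; exact zero_le
  have hgsmul : ∀ (t : ℝ) (x : E), |t| ≤ 1 → g (t • x) ≤ g x := by
    intro t x ht
    apply hgmono
    intro n hx
    exact (hV2 n).smul_mem (by simpa using ht) hx
  have hgneg : ∀ x, g (-x) = g x := by
    intro x
    apply le_antisymm
    · have := hgsmul (-1) x (by simp)
      simpa using this
    · have := hgsmul (-1) (-x) (by simp)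
      simpa using this
  let d : E → E → ℝ≥0 := fun x y => g (x - y)
  have hdself : ∀ x, d x x = 0 := by intro x; simp only [d, sub_self, hg0]
  have hdcomm : ∀ x y, d x y = d y x := by
    intro x y
    simp only [d]
    rw [← neg_sub, hgneg]
  let I : PseudoMetricSpace E := PseudoMetricSpace.ofPreNNDist d hdself hdcomm
  let D : E → E → ℝ := fun x y => @dist E I.toDist x y
  have hDdef : ∀ x y, D x y = ((⨅ l : List E, ((x::l).zipWith d (l ++ [y])).sum : ℝ≥0) : ℝ) :=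
    fun x y => rfl
  have hDle : ∀ x y, D x y ≤ d x y := PseudoMetricSpace.dist_ofPreNNDist_le _ _ _
  have hleD : ∀ x y, (d x y : ℝ) ≤ 2 * D x y := by
    refine PseudoMetricSpace.le_two_mul_dist_ofPreNNDist _ _ _ fun x₁ x₂ x₃ x₄ => ?_
    by_cases H : ∃ n, x₁ - x₄ ∉ V n
    · have e : d x₁ x₄ = (1 / 2) ^ Nat.find H := dif_pos H
      rw [e]
      rw [← div_le_iff₀' zero_lt_two, ← mul_one_div (_ ^ _), ← pow_succ]
      simp only [le_max_iff, d, hle_g, ← not_and_or]
      rintro ⟨h₁₂, h₂₃, h₃₄⟩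
      refine Nat.find_spec H ?_
      have := hV4 (Nat.find H) _ h₁₂ _ h₂₃ _ h₃₄
      convert this using 1
      abel
    · have e : d x₁ x₄ = 0 := dif_neg H
      rw [e]; exact zero_le
  have hmap : ∀ (φ : E → E), (∀ x y, d (φ x) (φ y) ≤ d x y) → ∀ x y, D (φ x) (φ y) ≤ D x y := by
    intro φ hφ x y
    rw [hDdef, hDdef, NNReal.coe_le_coe]
    refine le_ciInf fun l => ?_
    refine (ciInf_le (OrderBot.bddBelow _) (l.map φ)).trans ?_
    have key : ∀ (a b : List E), ((a.map φ).zipWith d (b.map φ)).sum ≤ (a.zipWith d b).sum := by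
      intro a
      induction a with
      | nil => intro b; simp
      | cons a0 a ih =>
        intro b
        cases b with
        | nil => simp
        | cons b0 b =>
          simp only [List.map_cons, List.zipWith_cons_cons, List.sum_cons]
          exact add_le_add (hφ _ _) (ih b)
    have := key (x :: l) (l ++ [y])
    simpa using this
  have htrans : ∀ a x y, D (x + a) (y + a) = D x y := by
    intro a x y
    apply le_antisymm
    · exact hmap (fun z => z + a) (fun x y => by simp [d]) x y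
    · have := hmap (fun z => z - a) (fun x y => by simp [d]) (x + a) (y + a)
      simpa using this
  have htri : ∀ x y z, D x z ≤ D x y + D y z := fun x y z => @dist_triangle E I x y z
  have hcomm : ∀ x y, D x y = D y x := fun x y => @dist_comm E I x y
  refine ⟨⟨fun x => D x 0, fun x => @dist_nonneg E I x 0, @dist_self E I 0, ?_, ?_, ?_, ?_⟩⟩
  · intro x
    have := htrans x (-x) 0
    simp only [neg_add_cancel, zero_add] at this
    rw [← this, hcomm]
  · intro x y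
    have h1 := htri (x + y) y 0
    have h2 := htrans y x 0
    rw [zero_add] at h2
    linarith
  · intro t x ht
    have := hmap (fun z => t • z) (fun x y => by
      simp only [d]; rw [← smul_sub]; exact hgsmul t _ ht) x 0
    simpa using this
  · rw [hasBasis_iff]
    intro W
    constructor
    · intro hW
      obtain ⟨n, hn⟩ := hV5 W hW
      refine ⟨(1 / 2) ^ n / 2, by positivity, fun x hx => hn ?_⟩
      by_contra hxn
      have h1 := hle_g.2 hxn
      have h2 := hleD x 0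
      simp only [d, sub_zero] at h2
      have h3 : ((1 / 2 : ℝ≥0) ^ n : ℝ≥0) ≤ g x := h1
      have h4 : ((1 / 2 : ℝ) ^ n) ≤ g x := by exact_mod_cast h3
      have h5 : D x 0 < (1 / 2) ^ n / 2 := hx
      linarith
    · rintro ⟨ε, hε, hW⟩
      obtain ⟨n, hn⟩ := exists_pow_lt_of_lt_one hε (by norm_num : (1 / 2 : ℝ) < 1)
      refine mem_of_superset (hV1 n) (fun x hx => hW ?_)
      have h1 : ¬ ((1 / 2 : ℝ≥0) ^ n ≤ g x) := by rw [hle_g]; simpa using hx
      push Not at h1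
      have h2 : ((g x : ℝ≥0) : ℝ) < (1 / 2) ^ n := by exact_mod_cast h1
      have h3 := hDle x 0
      simp only [d, sub_zero] at h3
      show D x 0 < ε
      linarith

end Pool.Agent.MP_645085_gt
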