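import Pool.Agent.MP_645085_gt.Avg

/-!
The countable locally finite approximation property of non-separable metrizable topological
vector spaces.
-/

namespace Pool.Agent.MP_645085_gt

open Set Filter Topology TopologicalSpace Function

universe u

variable {E : Type u} [AddCommGroup E] [Module ℝ E] [TopologicalSpace E]
  [IsTopologicalAddGroup E]

/-- A Lipschitz control function subordinate to an open cover. -/
theorem exists_rho (nu : FNorm E) (U : Set (Set E)) (hU : ∀ u ∈ U, IsOpen u) (hcov : ⋃₀ U = univ) :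
    ∃ ρ : E → ℝ, (∀ x, 0 < ρ x) ∧ (∀ x y, |ρ x - ρ y| ≤ nu.N (x - y)) ∧
      ∀ x r, r < ρ x → ∃ u ∈ U, ∀ y, nu.N (y - x) < r → y ∈ u := by
  let S : E → Set ℝ := fun x => {r | 0 ≤ r ∧ r ≤ 1 ∧ ∃ u ∈ U, ∀ y, nu.N (y - x) < r → y ∈ u}
  have hbdd : ∀ x, BddAbove (S x) := fun x => ⟨1, fun r hr => hr.2.1⟩
  have hpos : ∀ x, ∃ r ∈ S x, 0 < r := by
    intro x
    obtain ⟨u, hu, hxu⟩ := mem_sUnion.1 (hcov ▸ mem_univ x)
    obtain ⟨ε, hε, hsub⟩ := (nu.nhds_basis x).mem_iff.1 ((hU u hu).mem_nhds hxu)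
    refine ⟨min ε 1, ⟨le_min hε.le zero_le_one, min_le_right _ _, u, hu, fun y hy => ?_⟩,
      lt_min hε zero_lt_one⟩
    exact hsub (lt_of_lt_of_le hy (min_le_left _ _))
  have hne : ∀ x, (S x).Nonempty := fun x => let ⟨r, hr, _⟩ := hpos x; ⟨r, hr⟩
  have h0 : ∀ x, 0 ∈ S x := by
    intro x
    obtain ⟨r, ⟨_, _, u, hu, _⟩, _⟩ := hpos x
    refine ⟨le_rfl, zero_le_one, u, hu, fun y hy => ?_⟩
    exact absurd hy (not_lt.2 (nu.nonneg _))
  refine ⟨fun x => sSup (S x), ?_, ?_, ?_⟩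
  · intro x
    obtain ⟨r, hr, hr0⟩ := hpos x
    exact hr0.trans_le (le_csSup (hbdd x) hr)
  · have key : ∀ x y, sSup (S x) ≤ sSup (S y) + nu.N (x - y) := by
      intro x y
      apply csSup_le (hne x)
      rintro r ⟨hr0, hr1, u, hu, hru⟩
      rcases le_total r (nu.N (x - y)) with h | h
      · have := le_csSup (hbdd y) (h0 y)
        linarith
      · have hmem : r - nu.N (x - y) ∈ S y := by
          refine ⟨by linarith, by linarith [nu.nonneg (x - y)], u, hu, fun z hz => hru z ?_⟩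
          have := nu.N_tri z y x
          rw [nu.N_sub_comm y x] at this
          linarith
        have := le_csSup (hbdd y) hmem
        linarith
    intro x y
    rw [abs_sub_le_iff]
    constructor
    · linarith [key x y]
    · have := key y x
      rw [nu.N_sub_comm y x] at this
      linarith
  · intro x r hr
    obtain ⟨r', hr', hlt⟩ := exists_lt_of_lt_csSup (hne x) hr
    obtain ⟨_, _, u, hu, h⟩ := hr'
    exact ⟨u, hu, fun y hy => h y (hy.trans hlt)⟩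

lemma pow_bound (n : ℕ) : ((n : ℝ) + 1) ≤ 16 ^ n := by
  induction n with
  | zero => simp
  | succ n ih =>
    rw [pow_succ]
    push_cast
    have : (0 : ℝ) ≤ n := Nat.cast_nonneg n
    linarith

theorem lfap [ContinuousSMul ℝ E] [MetrizableSpace E] (hE : ¬ SeparableSpace E)
    (U : Set (Set E)) (hU : ∀ u ∈ U, IsOpen u) (hcov : ⋃₀ U = univ) :
    ∃ f : ℕ → C(E, E), (∀ n x, ∃ u ∈ U, x ∈ u ∧ f n x ∈ u) ∧
      LocallyFinite fun n => range (f n) := by
  classical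
  let _ : MetricSpace E := metrizableSpaceMetric E
  obtain ⟨nu⟩ := exists_fnorm (E := E)
  obtain ⟨C⟩ := exists_chain nu hE
  obtain ⟨ρ, hρ0, hρL, hρU⟩ := exists_rho nu U hU hcov
  have hρc : Continuous ρ := nu.continuous_of_lip hρL
  -- the scale function
  set A : ℝ := 48 * C.ε + 1 with hA
  have hAε : 0 < C.ε := C.pos
  have hA0 : 0 < A := by linarith
  let σ : E → ℝ := fun x => A / ρ x
  have hσ0 : ∀ x, 0 ≤ σ x := fun x => (div_pos hA0 (hρ0 x)).le
  have hσc : Continuous σ := continuous_const.div hρc fun x => (hρ0 x).ne'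
  have hsmall : ∀ x, 12 * C.η ⌊σ x⌋₊ < ρ x / 4 := by
    intro x
    have h1 := pow_bound ⌊σ x⌋₊
    have h2 := Nat.lt_floor_add_one (σ x)
    have h3 : σ x * ρ x = A := by
      show A / ρ x * ρ x = A
      exact div_mul_cancel₀ _ (hρ0 x).ne'
    have h4 : C.η ⌊σ x⌋₊ * 16 ^ ⌊σ x⌋₊ = C.ε := by
      unfold Chain.η
      exact div_mul_cancel₀ _ (by positivity)
    have h5 : C.η ⌊σ x⌋₊ * σ x ≤ C.ε := by
      rw [← h4]
      apply mul_le_mul_of_nonneg_left _ (C.η_pos _).le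
      linarith
    have h6 : C.η ⌊σ x⌋₊ * A ≤ C.ε * ρ x := by
      rw [← h3, ← mul_assoc]
      exact mul_le_mul_of_nonneg_right h5 (hρ0 x).le
    have h7 : 48 * C.η ⌊σ x⌋₊ * C.ε < C.ε * ρ x := by
      have := C.η_pos ⌊σ x⌋₊
      rw [hA] at h6
      nlinarith
    have h8 : 48 * C.η ⌊σ x⌋₊ < ρ x := by
      by_contra hc
      push Not at hc
      have : C.ε * ρ x ≤ 48 * C.η ⌊σ x⌋₊ * C.ε := by
        rw [mul_comm]
        exact mul_le_mul_of_nonneg_right hc hAε.le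
      linarith
    linarith
  -- the averaged distances
  have hδ : ∀ i : ℕ, 0 < C.η (i + 3) / 8 := fun i => div_pos (C.η_pos _) (by norm_num)
  choose q hq1 hq2 using fun i : ℕ => C.exists_q (hδ i)
  have hq1' : ∀ (I : ℕ) (x0 : E), ∃ K, ∀ᶠ x in 𝓝 x0, ∀ i ≤ I, ∀ j, K ≤ j →
      q i j x ≤ 2 * (C.η (i + 3) / 8) := by
    intro I x0
    choose K hK using fun i => hq1 i x0
    refine ⟨∑ i ∈ Finset.range (I + 1), K i, ?_⟩
    have h1 : ∀ᶠ x in 𝓝 x0, ∀ i ∈ Iic I, ∀ j, K i ≤ j → q i j x ≤ 2 * (C.η (i + 3) / 8) := by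
      rw [eventually_all_finite (finite_Iic I)]
      intro i _
      exact hK i
    filter_upwards [h1] with x hx i hi j hj
    apply hx i hi j
    refine le_trans ?_ hj
    exact Finset.single_le_sum (f := K) (fun _ _ => Nat.zero_le _)
      (Finset.mem_range.2 (by omega))
  -- the direction functions
  have hθ : ∀ n : ℕ, ∃ θ : C(E, ℝ), ∀ x, θ x ∈ {r : ℝ | (n : ℝ) ≤ r ∧
      ∀ i ≤ ⌊σ x⌋₊, ∀ j : ℕ, r - 1 ≤ j → q i j x ≤ 2 * (C.η (i + 3) / 8)} := by
    intro n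
    apply exists_continuous_forall_mem_convex_of_local_const
    · intro x
      apply Set.OrdConnected.convex
      constructor
      rintro a ⟨ha1, ha2⟩ b _ c ⟨hc1, _⟩
      exact ⟨ha1.trans hc1, fun i hi j hj => ha2 i hi j (by linarith)⟩
    · intro x0
      obtain ⟨K, hK⟩ := hq1' (⌊σ x0 + 1⌋₊) x0
      refine ⟨max n (K + 1), ?_⟩
      have hev : ∀ᶠ x in 𝓝 x0, σ x < σ x0 + 1 :=
        hσc.continuousAt.eventually_lt continuousAt_const (by linarith)
      filter_upwards [hK, hev] with x hx hx2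
      refine ⟨le_max_left _ _, fun i hi j hj => hx i ?_ j ?_⟩
      · exact hi.trans (Nat.floor_mono hx2.le)
      · have h1 : (K : ℝ) + 1 ≤ max (n : ℝ) (K + 1) := le_max_right _ _
        have h2 : (K : ℝ) ≤ j := by linarith
        exact_mod_cast h2
  choose θ hθ using hθ
  have hθ0 : ∀ n x, 0 ≤ θ n x := fun n x => (Nat.cast_nonneg n).trans (hθ n x).1
  let f : ℕ → C(E, E) := fun n =>
    ⟨fun x => x + C.P (σ x, θ n x), by
      have h1 := C.continuous_P
      have h2 := (θ n).continuous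
      exact continuous_id.add (h1.comp (hσc.prodMk h2))⟩
  have hfdef : ∀ n x, f n x = x + C.P (σ x, θ n x) := fun n x => rfl
  have hfN : ∀ n x, nu.N (f n x - x) < ρ x / 4 := by
    intro n x
    rw [hfdef, add_sub_cancel_left]
    exact (C.N_P (hσ0 x) (hθ0 n x)).trans_lt (hsmall x)
  refine ⟨f, ?_, ?_⟩
  · intro n x
    obtain ⟨u, hu, h⟩ := hρU x (ρ x / 2) (by linarith [hρ0 x])
    refine ⟨u, hu, h x ?_, h _ ?_⟩
    · rw [sub_self, nu.zero]
      linarith [hρ0 x]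
    · linarith [hfN n x, hρ0 x]
  · intro y0
    have hy0 := hρ0 y0
    set I : ℕ := ⌊5 / 3 * A / ρ y0⌋₊ with hI
    obtain ⟨K, hK⟩ := hq1' I y0
    have hW : ∀ᶠ y in 𝓝 y0, nu.N (y - y0) < ρ y0 / 4 := nu.eventually_N_lt y0 (by linarith)
    refine ⟨{y | (∀ i ≤ I, ∀ j, K ≤ j → q i j y ≤ 2 * (C.η (i + 3) / 8)) ∧
      nu.N (y - y0) < ρ y0 / 4}, hK.and hW, ?_⟩
    refine (finite_Iio K).subset ?_
    rintro n ⟨y, ⟨x, rfl⟩, hy1, hy2⟩
    by_contra hn
    simp only [mem_Iio, not_lt] at hn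
    -- comparison of the control function
    have e1 := hρL (f n x) y0
    have e2 := hρL (f n x) x
    have e3 := hfN n x
    rw [abs_sub_le_iff] at e1 e2
    have hρx : 3 / 5 * ρ y0 ≤ ρ x := by
      have a1 : ρ (f n x) ≤ ρ x + ρ x / 4 := by linarith [e2.1]
      have a2 : ρ y0 - ρ y0 / 4 ≤ ρ (f n x) := by linarith [e1.2]
      linarith
    have hσx : σ x ≤ 5 / 3 * A / ρ y0 := by
      show A / ρ x ≤ _
      rw [div_le_div_iff₀ (hρ0 x) hy0]
      nlinarith
    have hi : ⌊σ x⌋₊ ≤ I := Nat.floor_mono hσx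
    obtain ⟨j, hj1, hj2⟩ := C.P_far (hσ0 x) (hθ0 n x)
    have hnj : K ≤ j := by
      refine hn.trans (le_trans ?_ hj1)
      exact Nat.le_floor (hθ n x).1
    have b1 := hy1 ⌊σ x⌋₊ hi j hnj
    have b2 := (hθ n x).2 ⌊σ x⌋₊ le_rfl j (by
      have c1 := Nat.lt_floor_add_one (θ n x)
      have c2 : ((⌊θ n x⌋₊ : ℕ) : ℝ) ≤ j := by exact_mod_cast hj1
      linarith)
    have b3 := hq2 ⌊σ x⌋₊ j x (C.P (σ x, θ n x)) ⟨_, C.P_mem (hσ0 x) (hθ0 n x)⟩
    rw [← hfdef] at b3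
    have b4 := C.η_pos (⌊σ x⌋₊ + 3)
    linarith

end Pool.Agent.MP_645085_gt
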