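import Pool.Agent.MP_645085_gt.Dist

/-!
The two-parameter push inside the union of a chain of subspaces.
-/

namespace Pool.Agent.MP_645085_gt

open Set Filter Topology TopologicalSpace Function

/-- Truncation to the unit interval. -/
noncomputable def clamp (t : ℝ) : ℝ := max 0 (min 1 t)

lemma clamp_nonneg (t : ℝ) : 0 ≤ clamp t := le_max_left _ _
lemma clamp_le_one (t : ℝ) : clamp t ≤ 1 := max_le zero_le_one (min_le_left _ _)
lemma clamp_of_nonpos {t : ℝ} (h : t ≤ 0) : clamp t = 0 :=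
  max_eq_left ((min_le_right _ _).trans h)
lemma clamp_of_one_le {t : ℝ} (h : 1 ≤ t) : clamp t = 1 := by
  unfold clamp; rw [min_eq_left h]; exact max_eq_right zero_le_one
lemma abs_clamp_le (t : ℝ) : |clamp t| ≤ 1 := by
  rw [abs_of_nonneg (clamp_nonneg t)]; exact clamp_le_one t
lemma continuous_clamp : Continuous clamp := by unfold clamp; fun_prop

/-- The plateau function around `i`. -/
noncomputable def tau (i : ℕ) (σ : ℝ) : ℝ := clamp (3 - 4 * |σ - i|)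

/-- The plateau function around `i - 1/2`. -/
noncomputable def pre (i : ℕ) (θ : ℝ) : ℝ := clamp (2 - 4 * |θ - (i - 1 / 2)|)

lemma continuous_tau (i : ℕ) : Continuous (tau i) := by
  unfold tau; exact continuous_clamp.comp (by fun_prop)

lemma continuous_pre (i : ℕ) : Continuous (pre i) := by
  unfold pre; exact continuous_clamp.comp (by fun_prop)

lemma tau_eq_one {i : ℕ} {σ : ℝ} (h : |σ - i| ≤ 1 / 2) : tau i σ = 1 :=
  clamp_of_one_le (by linarith)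

lemma tau_eq_zero {i : ℕ} {σ : ℝ} (h : 3 / 4 ≤ |σ - i|) : tau i σ = 0 :=
  clamp_of_nonpos (by linarith)

lemma tau_nonneg (i : ℕ) (σ : ℝ) : 0 ≤ tau i σ := clamp_nonneg _
lemma pre_nonneg (i : ℕ) (σ : ℝ) : 0 ≤ pre i σ := clamp_nonneg _
lemma abs_tau_le (i : ℕ) (σ : ℝ) : |tau i σ| ≤ 1 := abs_clamp_le _
lemma abs_pre_le (i : ℕ) (σ : ℝ) : |pre i σ| ≤ 1 := abs_clamp_le _
lemma tau_le_one (i : ℕ) (σ : ℝ) : tau i σ ≤ 1 := clamp_le_one _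

lemma pre_eq_one {i : ℕ} {θ : ℝ} (h : |θ - (i - 1 / 2)| ≤ 1 / 4) : pre i θ = 1 :=
  clamp_of_one_le (by linarith)

lemma pre_eq_zero {i : ℕ} {θ : ℝ} (h : 1 / 2 ≤ |θ - (i - 1 / 2)|) : pre i θ = 0 :=
  clamp_of_nonpos (by linarith)

lemma floor_cases {σ : ℝ} {i : ℕ} (hσ : 0 ≤ σ) (h : |σ - i| < 3 / 4) :
    i = ⌊σ⌋₊ ∨ i = ⌊σ⌋₊ + 1 := by
  have h1 := Nat.floor_le hσ
  have h2 := Nat.lt_floor_add_one σ
  rw [abs_lt] at h
  have h3 : (⌊σ⌋₊ : ℝ) < i + 1 := by linarith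
  have h4 : (i : ℝ) < ⌊σ⌋₊ + 2 := by linarith
  have h3' : ⌊σ⌋₊ < i + 1 := by exact_mod_cast h3
  have h4' : i < ⌊σ⌋₊ + 2 := by exact_mod_cast h4
  omega

lemma tau_ne_zero {σ : ℝ} {i : ℕ} (hσ : 0 ≤ σ) (h : tau i σ ≠ 0) :
    i = ⌊σ⌋₊ ∨ i = ⌊σ⌋₊ + 1 := by
  apply floor_cases hσ
  by_contra hc
  push Not at hc
  exact h (tau_eq_zero hc)

lemma pre_ne_zero {σ : ℝ} {i : ℕ} (hσ : 0 ≤ σ) (h : pre i σ ≠ 0) : i = ⌊σ⌋₊ + 1 := by
  have h0 : |σ - (i - 1 / 2)| < 1 / 2 := by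
    by_contra hc
    push Not at hc
    exact h (pre_eq_zero hc)
  have h1 := Nat.floor_le hσ
  have h2 := Nat.lt_floor_add_one σ
  rw [abs_lt] at h0
  have h3 : (⌊σ⌋₊ : ℝ) < i := by linarith
  have h4 : (i : ℝ) < ⌊σ⌋₊ + 2 := by linarith
  have h3' : ⌊σ⌋₊ < i := by exact_mod_cast h3
  have h4' : i < ⌊σ⌋₊ + 2 := by exact_mod_cast h4
  omega

lemma locallyFinite_near {X : Type*} [TopologicalSpace X] {φ : X → ℝ} (hφ : Continuous φ) :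
    LocallyFinite fun k : ℕ => {x | |φ x - k| < 2} := by
  intro x
  refine ⟨φ ⁻¹' Metric.ball (φ x) 1, hφ.continuousAt (Metric.ball_mem_nhds _ one_pos), ?_⟩
  refine (finite_Iio (⌈|φ x| + 3⌉₊ + 1)).subset ?_
  rintro k ⟨y, hy1, hy2⟩
  have h1 : |φ y - k| < 2 := hy1
  have h2 : |φ y - φ x| < 1 := by
    have := hy2
    rwa [mem_preimage, Metric.mem_ball, Real.dist_eq] at this
  rw [abs_lt] at h1 h2
  have h3 : (k : ℝ) < |φ x| + 3 := by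
    have := le_abs_self (φ x)
    linarith
  have h4 := Nat.le_ceil (|φ x| + 3)
  have h5 : (k : ℝ) < ⌈|φ x| + 3⌉₊ + 1 := by linarith
  exact_mod_cast h5

namespace Chain

section
variable {E : Type*} [AddCommGroup E] [Module ℝ E] [TopologicalSpace E]
  {nu : FNorm E} (C : Chain nu)

/-- The scales. -/
noncomputable def η (i : ℕ) : ℝ := C.ε / 16 ^ i

lemma η_pos (i : ℕ) : 0 < C.η i := div_pos C.pos (by positivity)

lemma η_succ (i : ℕ) : C.η i = 16 * C.η (i + 1) := by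
  unfold η
  rw [pow_succ]
  field_simp

lemma η_anti : Antitone C.η := by
  apply antitone_nat_of_succ_le
  intro n
  have := C.η_succ n
  have := C.η_pos (n + 1)
  linarith

lemma η_zero : C.η 0 = C.ε := by simp [η]

lemma η_le (i : ℕ) : C.η i ≤ C.ε := by
  rw [← C.η_zero]; exact C.η_anti (Nat.zero_le i)

end

variable {E : Type*} [AddCommGroup E] [Module ℝ E] [TopologicalSpace E]
  [IsTopologicalAddGroup E] [ContinuousSMul ℝ E] {nu : FNorm E} (C : Chain nu)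

lemma exists_sv (i k : ℕ) : ∃ (s : ℝ) (y : E), 0 ≤ s ∧ y ∈ C.Y k ∧
    nu.dF (C.Y k) (s • C.x k) = C.η i ∧ nu.N (s • C.x k - y) ≤ 2 * C.η i := by
  have hc : Continuous fun s : ℝ => nu.dF (C.Y k) (s • C.x k) :=
    (nu.continuous_dF _).comp (by fun_prop)
  have h0 : nu.dF (C.Y k) ((0 : ℝ) • C.x k) = 0 := by
    rw [zero_smul]
    apply le_antisymm _ (nu.dF_nonneg _ _)
    rw [← nu.zero]
    exact nu.dF_le_N _ _
  have h1 : C.η i ≤ nu.dF (C.Y k) ((1 : ℝ) • C.x k) := by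
    rw [one_smul]
    exact (C.η_le i).trans (C.far k)
  have h2 := intermediate_value_Icc (zero_le_one' ℝ) hc.continuousOn
  obtain ⟨s, hs, hs2⟩ := h2 ⟨by rw [h0]; exact (C.η_pos i).le, h1⟩
  have h3 : nu.dF (C.Y k) (s • C.x k) < 2 * C.η i := by
    have := C.η_pos i
    have h4 : nu.dF (C.Y k) (s • C.x k) = C.η i := hs2
    linarith
  obtain ⟨y, hy, hy2⟩ := nu.exists_of_dF_lt h3
  exact ⟨s, y, hs.1, hy, hs2, hy2.le⟩

/-- The scaling factors. -/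
noncomputable def s (i k : ℕ) : ℝ := (C.exists_sv i k).choose
/-- The corrections. -/
noncomputable def y (i k : ℕ) : E := (C.exists_sv i k).choose_spec.choose

lemma s_nonneg (i k : ℕ) : 0 ≤ C.s i k := (C.exists_sv i k).choose_spec.choose_spec.1
lemma y_mem (i k : ℕ) : C.y i k ∈ C.Y k := (C.exists_sv i k).choose_spec.choose_spec.2.1
lemma dF_s (i k : ℕ) : nu.dF (C.Y k) (C.s i k • C.x k) = C.η i :=
  (C.exists_sv i k).choose_spec.choose_spec.2.2.1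
/-- The push vectors. -/
noncomputable def v (i k : ℕ) : E := C.s i k • C.x k - C.y i k
lemma N_v (i k : ℕ) : nu.N (C.v i k) ≤ 2 * C.η i :=
  (C.exists_sv i k).choose_spec.choose_spec.2.2.2

/-- The push at scale `σ` in direction `k`. -/
noncomputable def M (k : ℕ) (σ : ℝ) : E := ∑ᶠ i : ℕ, tau i σ • C.v i k

lemma continuous_M (k : ℕ) : Continuous (C.M k) := by
  unfold M
  apply continuous_finsum
  · intro i
    exact (continuous_tau i).smul continuous_const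
  · refine (locallyFinite_near continuous_id).subset fun i σ h => ?_
    by_contra hc
    simp only [id, mem_ofPred_eq, not_lt] at hc
    apply h
    show tau i σ • C.v i k = 0
    rw [tau_eq_zero (by linarith), zero_smul]

lemma M_eq (k : ℕ) {σ : ℝ} (hσ : 0 ≤ σ) :
    C.M k σ = tau ⌊σ⌋₊ σ • C.v ⌊σ⌋₊ k + tau (⌊σ⌋₊ + 1) σ • C.v (⌊σ⌋₊ + 1) k := by
  classical
  unfold M
  rw [finsum_eq_sum_of_support_subset (s := {⌊σ⌋₊, ⌊σ⌋₊ + 1})]
  · rw [Finset.sum_pair (by simp)]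
  · intro i hi
    have : tau i σ ≠ 0 := by
      intro h
      apply hi
      show tau i σ • C.v i k = 0
      rw [h, zero_smul]
    rcases tau_ne_zero hσ this with h | h <;> simp [h]

lemma N_M (k : ℕ) {σ : ℝ} (hσ : 0 ≤ σ) : nu.N (C.M k σ) ≤ 4 * C.η ⌊σ⌋₊ := by
  rw [C.M_eq k hσ]
  have h1 := nu.add (tau ⌊σ⌋₊ σ • C.v ⌊σ⌋₊ k) (tau (⌊σ⌋₊ + 1) σ • C.v (⌊σ⌋₊ + 1) k)
  have h2 := nu.smul (tau ⌊σ⌋₊ σ) (C.v ⌊σ⌋₊ k) (abs_tau_le _ _)
  have h3 := nu.smul (tau (⌊σ⌋₊ + 1) σ) (C.v (⌊σ⌋₊ + 1) k) (abs_tau_le _ _)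
  have h4 := C.N_v ⌊σ⌋₊ k
  have h5 := C.N_v (⌊σ⌋₊ + 1) k
  have h6 := C.η_anti (Nat.le_succ ⌊σ⌋₊)
  simp only [Nat.succ_eq_add_one] at h6
  linarith

/-- The class of a push modulo the previous subspace. -/
lemma M_class (k : ℕ) {σ : ℝ} (hσ : 0 ≤ σ) :
    ∃ (S : ℝ) (z : E), z ∈ C.Y k ∧ C.M k σ = S • C.x k - z ∧ 0 ≤ S ∧
      ∃ i ≤ ⌊σ⌋₊ + 1, C.s i k ≤ S := by
  rw [C.M_eq k hσ]
  refine ⟨tau ⌊σ⌋₊ σ * C.s ⌊σ⌋₊ k + tau (⌊σ⌋₊ + 1) σ * C.s (⌊σ⌋₊ + 1) k,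
    tau ⌊σ⌋₊ σ • C.y ⌊σ⌋₊ k + tau (⌊σ⌋₊ + 1) σ • C.y (⌊σ⌋₊ + 1) k, ?_, ?_, ?_, ?_⟩
  · exact (C.Y k).add_mem ((C.Y k).smul_mem _ (C.y_mem _ _)) ((C.Y k).smul_mem _ (C.y_mem _ _))
  · unfold v
    rw [smul_sub, smul_sub, add_smul, smul_smul, smul_smul]
    abel
  · have := tau_nonneg ⌊σ⌋₊ σ
    have := tau_nonneg (⌊σ⌋₊ + 1) σ
    have := C.s_nonneg ⌊σ⌋₊ k
    have := C.s_nonneg (⌊σ⌋₊ + 1) k
    positivity
  · have h1 := Nat.floor_le hσ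
    have h2 := Nat.lt_floor_add_one σ
    have t1 := tau_nonneg ⌊σ⌋₊ σ
    have t2 := tau_nonneg (⌊σ⌋₊ + 1) σ
    have s1 := C.s_nonneg ⌊σ⌋₊ k
    have s2 := C.s_nonneg (⌊σ⌋₊ + 1) k
    rcases le_total (σ - ⌊σ⌋₊) (1 / 2) with h | h
    · refine ⟨⌊σ⌋₊, by omega, ?_⟩
      have e : tau ⌊σ⌋₊ σ = 1 := tau_eq_one (by rw [abs_of_nonneg (by linarith)]; exact h)
      rw [e]
      have : 0 ≤ tau (⌊σ⌋₊ + 1) σ * C.s (⌊σ⌋₊ + 1) k := mul_nonneg t2 s2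
      linarith
    · refine ⟨⌊σ⌋₊ + 1, le_rfl, ?_⟩
      have e : tau (⌊σ⌋₊ + 1) σ = 1 := by
        apply tau_eq_one
        push_cast
        rw [abs_of_nonpos (by linarith)]
        linarith
      rw [e]
      have : 0 ≤ tau ⌊σ⌋₊ σ * C.s ⌊σ⌋₊ k := mul_nonneg t1 s1
      linarith

lemma M_mem (k : ℕ) {σ : ℝ} (hσ : 0 ≤ σ) : C.M k σ ∈ C.Y (k + 1) := by
  obtain ⟨S, z, hz, h, -⟩ := C.M_class k hσ
  rw [h]
  exact (C.Y (k + 1)).sub_mem ((C.Y (k + 1)).smul_mem _ (C.mem k)) (C.mono (Nat.le_succ k) hz)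

/-- The combination of two pushes in direction `k`, one with coefficient one. -/
lemma far_comb (k : ℕ) {σ σ' c : ℝ} (hσ : 0 ≤ σ) (hσ' : 0 ≤ σ') (hc : 0 ≤ c) :
    C.η (⌊σ⌋₊ + 1) ≤ nu.dF (C.Y k) (C.M k σ + c • C.M k σ') := by
  obtain ⟨S, z, hz, h, hS, i, hi, hiS⟩ := C.M_class k hσ
  obtain ⟨S', z', hz', h', hS', -⟩ := C.M_class k hσ'
  rw [h, h']
  have e : S • C.x k - z + c • (S' • C.x k - z') = (S + c * S') • C.x k - (z + c • z') := by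
    rw [smul_sub, add_smul, smul_smul]
    abel
  rw [e, nu.dF_sub_mem ((C.Y k).add_mem hz ((C.Y k).smul_mem _ hz'))]
  have h1 : nu.dF (C.Y k) (C.s i k • C.x k) ≤ nu.dF (C.Y k) ((S + c * S') • C.x k) := by
    apply nu.dF_smul_mono _ _ (C.s_nonneg i k)
    have : 0 ≤ c * S' := mul_nonneg hc hS'
    linarith
  rw [C.dF_s] at h1
  exact (C.η_anti hi).trans h1

/-- The push. -/
noncomputable def P (p : ℝ × ℝ) : E :=
  ∑ᶠ k : ℕ, (tau k p.2 • C.M k p.1 + pre k p.2 • C.M k (p.1 + 2))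

lemma continuous_P : Continuous C.P := by
  unfold P
  apply continuous_finsum
  · intro k
    have h1 := continuous_tau k
    have h2 := continuous_pre k
    have h3 := C.continuous_M k
    fun_prop
  · refine (locallyFinite_near continuous_snd).subset fun k p h => ?_
    by_contra hc
    simp only [mem_ofPred_eq, not_lt] at hc
    apply h
    show tau k p.2 • C.M k p.1 + pre k p.2 • C.M k (p.1 + 2) = 0
    rw [tau_eq_zero (by linarith), pre_eq_zero, zero_smul, zero_smul, add_zero]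
    have h5 : |p.2 - k| ≤ |p.2 - (k - 1 / 2)| + 1 / 2 := by
      have := abs_sub_abs_le_abs_sub (p.2 - k) (p.2 - (k - 1 / 2))
      have e : p.2 - k - (p.2 - (k - 1 / 2)) = - (1 / 2) := by ring
      rw [e, abs_neg, abs_of_nonneg (by norm_num : (0 : ℝ) ≤ 1 / 2)] at this
      linarith
    linarith

lemma P_eq (σ : ℝ) {θ : ℝ} (hθ : 0 ≤ θ) :
    C.P (σ, θ) = tau ⌊θ⌋₊ θ • C.M ⌊θ⌋₊ σ + tau (⌊θ⌋₊ + 1) θ • C.M (⌊θ⌋₊ + 1) σ +
      pre (⌊θ⌋₊ + 1) θ • C.M (⌊θ⌋₊ + 1) (σ + 2) := by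
  classical
  unfold P
  rw [finsum_eq_sum_of_support_subset (s := {⌊θ⌋₊, ⌊θ⌋₊ + 1})]
  · rw [Finset.sum_pair (by simp)]
    have : pre ⌊θ⌋₊ θ = 0 := by
      by_contra h
      have := pre_ne_zero hθ h
      omega
    simp only [this, zero_smul, add_zero]
    abel
  · intro i hi
    by_cases h1 : tau i θ = 0
    · by_cases h2 : pre i θ = 0
      · exfalso
        apply hi
        simp [h1, h2]
      · have := pre_ne_zero hθ h2
        simp [this]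
    · rcases tau_ne_zero hθ h1 with h | h <;> simp [h]

lemma P_mem {σ θ : ℝ} (hσ : 0 ≤ σ) (hθ : 0 ≤ θ) : C.P (σ, θ) ∈ C.Y (⌊θ⌋₊ + 2) := by
  rw [C.P_eq σ hθ]
  have h1 := C.mono (show ⌊θ⌋₊ + 1 ≤ ⌊θ⌋₊ + 2 by omega) (C.M_mem ⌊θ⌋₊ hσ)
  have h2 := C.M_mem (⌊θ⌋₊ + 1) hσ
  have h3 := C.M_mem (⌊θ⌋₊ + 1) (show 0 ≤ σ + 2 by linarith)
  exact add_mem (add_mem (Submodule.smul_mem _ _ h1) (Submodule.smul_mem _ _ h2))
    (Submodule.smul_mem _ _ h3)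

lemma N_P {σ θ : ℝ} (hσ : 0 ≤ σ) (hθ : 0 ≤ θ) : nu.N (C.P (σ, θ)) ≤ 12 * C.η ⌊σ⌋₊ := by
  rw [C.P_eq σ hθ]
  have h1 := nu.add (tau ⌊θ⌋₊ θ • C.M ⌊θ⌋₊ σ + tau (⌊θ⌋₊ + 1) θ • C.M (⌊θ⌋₊ + 1) σ)
    (pre (⌊θ⌋₊ + 1) θ • C.M (⌊θ⌋₊ + 1) (σ + 2))
  have h2 := nu.add (tau ⌊θ⌋₊ θ • C.M ⌊θ⌋₊ σ) (tau (⌊θ⌋₊ + 1) θ • C.M (⌊θ⌋₊ + 1) σ)
  have h3 := nu.smul (tau ⌊θ⌋₊ θ) (C.M ⌊θ⌋₊ σ) (abs_tau_le _ _)
  have h4 := nu.smul (tau (⌊θ⌋₊ + 1) θ) (C.M (⌊θ⌋₊ + 1) σ) (abs_tau_le _ _)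
  have h5 := nu.smul (pre (⌊θ⌋₊ + 1) θ) (C.M (⌊θ⌋₊ + 1) (σ + 2)) (abs_pre_le _ _)
  have h6 := C.N_M ⌊θ⌋₊ hσ
  have h7 := C.N_M (⌊θ⌋₊ + 1) hσ
  have h8 := C.N_M (⌊θ⌋₊ + 1) (show 0 ≤ σ + 2 by linarith)
  have h9 : C.η ⌊σ + 2⌋₊ ≤ C.η ⌊σ⌋₊ := C.η_anti (Nat.floor_mono (by linarith))
  linarith

lemma floor_add_two {σ : ℝ} (hσ : 0 ≤ σ) : ⌊σ + 2⌋₊ = ⌊σ⌋₊ + 2 := by
  have := Nat.floor_add_ofNat hσ 2
  simpa using this

/-- The push leads far away from one of two consecutive subspaces. -/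
lemma P_far {σ θ : ℝ} (hσ : 0 ≤ σ) (hθ : 0 ≤ θ) :
    ∃ j, ⌊θ⌋₊ ≤ j ∧ C.η (⌊σ⌋₊ + 3) ≤ nu.dF (C.Y j) (C.P (σ, θ)) := by
  rw [C.P_eq σ hθ]
  set n := ⌊θ⌋₊ with hn
  have h1 := Nat.floor_le hθ
  have h2 := Nat.lt_floor_add_one θ
  rw [← hn] at h1 h2
  have hσ2 : 0 ≤ σ + 2 := by linarith
  have hMn : C.M n σ ∈ C.Y (n + 1) := C.M_mem n hσ
  by_cases ha : θ - n ≤ 1 / 4
  · refine ⟨n, le_rfl, ?_⟩
    have e1 : tau n θ = 1 := tau_eq_one (by rw [abs_of_nonneg (by linarith)]; linarith)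
    have e2 : tau (n + 1) θ = 0 := by
      apply tau_eq_zero
      push_cast
      rw [abs_of_nonpos (by linarith)]
      linarith
    rw [e1, e2, one_smul, zero_smul, add_zero]
    have h3 : C.η (⌊σ⌋₊ + 1) ≤ nu.dF (C.Y n) (C.M n σ + (0 : ℝ) • C.M n σ) :=
      C.far_comb n hσ hσ le_rfl
    rw [zero_smul, add_zero] at h3
    have h4 := nu.dF_add_le (C.Y n) (C.M n σ + pre (n + 1) θ • C.M (n + 1) (σ + 2))
      (-(pre (n + 1) θ • C.M (n + 1) (σ + 2)))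
    rw [add_neg_cancel_right, nu.neg] at h4
    have h5 := nu.smul (pre (n + 1) θ) (C.M (n + 1) (σ + 2)) (abs_pre_le _ _)
    have h6 := C.N_M (n + 1) hσ2
    rw [floor_add_two hσ] at h6
    have h7 := C.η_succ (⌊σ⌋₊ + 1)
    have h8 := C.η_succ (⌊σ⌋₊ + 2)
    have h9 := C.η_pos (⌊σ⌋₊ + 3)
    simp only [add_assoc] at h7 h8 h6
    norm_num at h7 h8
    linarith
  · refine ⟨n + 1, by omega, ?_⟩
    push Not at ha
    have hz : tau n θ • C.M n σ ∈ C.Y (n + 1) := (C.Y (n + 1)).smul_mem _ hMn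
    by_cases hb : θ - n ≤ 3 / 4
    · have e : pre (n + 1) θ = 1 := by
        apply pre_eq_one
        push_cast
        rw [abs_le]
        constructor <;> linarith
      have e' : tau n θ • C.M n σ + tau (n + 1) θ • C.M (n + 1) σ +
          pre (n + 1) θ • C.M (n + 1) (σ + 2) =
          (C.M (n + 1) (σ + 2) + tau (n + 1) θ • C.M (n + 1) σ) + tau n θ • C.M n σ := by
        rw [e, one_smul]; abel
      rw [e', nu.dF_add_mem hz]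
      have h3 := C.far_comb (n + 1) hσ2 hσ (tau_nonneg (n + 1) θ)
      rw [floor_add_two hσ] at h3
      exact h3
    · push Not at hb
      have e : tau (n + 1) θ = 1 := by
        apply tau_eq_one
        push_cast
        rw [abs_le]
        constructor <;> linarith
      have e' : tau n θ • C.M n σ + tau (n + 1) θ • C.M (n + 1) σ +
          pre (n + 1) θ • C.M (n + 1) (σ + 2) =
          (C.M (n + 1) σ + pre (n + 1) θ • C.M (n + 1) (σ + 2)) + tau n θ • C.M n σ := by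
        rw [e, one_smul]; abel
      rw [e', nu.dF_add_mem hz]
      have h3 := C.far_comb (n + 1) hσ hσ2 (pre_nonneg (n + 1) θ)
      exact (C.η_anti (by omega)).trans h3

end Chain

end Pool.Agent.MP_645085_gt
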